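import Pool.Agent.Work.MP_d028d5_al.HMain

namespace Pool.Agent.Results.MP_d028d5_al.NoBound

open Pool.Agent.Work.MP_d028d5_al

/-- Let `π` be an infinite set of primes that contains `7` but neither `2` nor `3` (for example
all primes `≥ 5`).  Then there are finite groups `G` with `σ_π(G) = 2` and `|ρ_π(G)|` arbitrarily
large.  So `|ρ_π(G)|` is not bounded by any function of `σ_π(G)`. -/
theorem result (π : Set ℕ) (hπ : ∀ q ∈ π, q.Prime) (hinf : π.Infinite) (h7 : 7 ∈ π)
    (h2 : 2 ∉ π) (h3 : 3 ∉ π) (m : ℕ) :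
    ∃ (G : Type) (_ : Group G), Finite G ∧ IsGreatest (primeCounts π G) 2 ∧ (rho π G).Finite ∧
      m ≤ (rho π G).ncard :=
  unbounded π hπ hinf h7 h2 h3 m

end Pool.Agent.Results.MP_d028d5_al.NoBound
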