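import Pool.Agent.Work.MP_d028d5_al.Main

namespace Pool.Agent.Results.MP_d028d5_al.NoLinearBound

open Pool.Agent.Work.MP_d028d5_al

/-- There is a set of primes `π` such that for every `ε > 0` and every constant `C` some symmetric
group `S_n` has `|ρ_π(S_n)| > C σ_π(S_n) ^ (2 - ε)`.  With `ε = 1`, `C = 3` this refutes
`|ρ_π(G)| ≤ 3 σ_π(G)`. -/
theorem result : ∃ π : Set ℕ, (∀ p ∈ π, p.Prime) ∧ ∀ ε : ℝ, 0 < ε → ∀ C : ℝ, ∃ n s : ℕ,
    IsGreatest (primeCounts π (Equiv.Perm (Fin n))) s ∧ (rho π (Equiv.Perm (Fin n))).Finite ∧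
      C * (s : ℝ) ^ (2 - ε) < (rho π (Equiv.Perm (Fin n))).ncard :=
  main

end Pool.Agent.Results.MP_d028d5_al.NoLinearBound
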